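import Pool.Agent.T4h92.DC.Fin

/-!
# MP_45e9b0_lc: dynamical compressibility of groups with property (T)

For countably infinite groups with Kazhdan's property (T) and countably many subgroups, an exact
criterion for dynamical compressibility.  Groups with property (T) all of whose proper subgroups
are finite or cyclic do not satisfy it (`Pool.Agent.T4h92.DC.CRIT.monsters`).
-/

set_option autoImplicit false

namespace Pool.Agent.Results.MP_45e9b0_lc.KazhdanCriterion

open Pool.Agent.T4h92.DC

theorem result :
    ∀ (G : Type) [Group G] [Countable G] [Infinite G] [Countable (Subgroup G)],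
      PropertyT G →
      (DynComp G ↔ ∃ (M : Subgroup G) (_ : M.Normal) (L : Subgroup G) (p : L →* G ⧸ M),
        Finite M ∧ ¬ L.FiniteIndex ∧ Function.Surjective p) :=
  h_CRIT

end Pool.Agent.Results.MP_45e9b0_lc.KazhdanCriterion
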